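import Pool.Agent.H8.JS.Targets

/-! # Row P0 of the board `js8_modules`: one bit -/

set_option autoImplicit false

namespace Pool.Agent.H69.JS

open Pool.Agent.H69.Sp Pool.Agent.H69.Mt Pool.Agent.H16.TO Pool.Agent.H8.PL Pool.Agent.H8.JS

section
variable {r : ℕ} {T : Type} (U : Bool → Bool → Bool → Bool → T → Prop) (Hh Vv : T → T → Prop)
  (x : List Bool)

theorem ev_dbl (b : Bool) (i p y h : ℕ) (w : ℕ → Option T) : ∀ n d s : ℕ,
    Ev (S5 (r := r) U Hh Vv x) A5 ⟨.dbl b, i, n, d, p, s, y, h, w⟩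
      ⟨.db2 b, i, 0, d + n, p, s + n, y, h, w⟩ (n + 1) := by
  intro n
  induction n with
  | zero =>
    intro d s
    refine Ev.step (fun k => ?_) (by simp [A5])
    simp [S5]
  | succ n ih =>
    intro d s
    have h1 : Ev (S5 (r := r) U Hh Vv x) A5 ⟨.dbl b, i, n + 1, d, p, s, y, h, w⟩
        ⟨.dbl b, i, n, d + 1, p, s + 1, y, h, w⟩ 1 := by
      refine Ev.step (fun k => ?_) (by simp [A5])
      simp [S5]
    have h2 := h1.trans (ih (d + 1) (s + 1))
    rw [show d + 1 + n = d + (n + 1) by omega, show s + 1 + n = s + (n + 1) by omega] at h2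
    exact h2.mono (by omega)

theorem ev_db2 (b : Bool) (i p s y h : ℕ) (w : ℕ → Option T) : ∀ n c : ℕ,
    Ev (S5 (r := r) U Hh Vv x) A5 ⟨.db2 b, i, c, n, p, s, y, h, w⟩
      ⟨.db3 b, i, c + n, 0, p, s, y, h, w⟩ (n + 1) := by
  intro n
  induction n with
  | zero =>
    intro c
    refine Ev.step (fun k => ?_) (by simp [A5])
    simp [S5]
  | succ n ih =>
    intro c
    have h1 : Ev (S5 (r := r) U Hh Vv x) A5 ⟨.db2 b, i, c, n + 1, p, s, y, h, w⟩
        ⟨.db2 b, i, c + 1, n, p, s, y, h, w⟩ 1 := by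
      refine Ev.step (fun k => ?_) (by simp [A5])
      simp [S5]
    have h2 := h1.trans (ih (c + 1))
    rw [show c + 1 + n = c + (n + 1) by omega] at h2
    exact h2.mono (by omega)

theorem ev_db3 (b : Bool) (i d p y h : ℕ) (w : ℕ → Option T) : ∀ n c : ℕ,
    Ev (S5 (r := r) U Hh Vv x) A5 ⟨.db3 b, i, c, d, p, n, y, h, w⟩
      ⟨.rd, i, c + n + b.toNat, d, p, 0, y, h, w⟩ (n + 1) := by
  intro n
  induction n with
  | zero =>
    intro c
    refine Ev.step (fun k => ?_) (by simp [A5])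
    cases b <;> simp [S5]
  | succ n ih =>
    intro c
    have h1 : Ev (S5 (r := r) U Hh Vv x) A5 ⟨.db3 b, i, c, d, p, n + 1, y, h, w⟩
        ⟨.db3 b, i, c + 1, d, p, n, y, h, w⟩ 1 := by
      refine Ev.step (fun k => ?_) (by simp [A5])
      simp [S5]
    have h2 := h1.trans (ih (c + 1))
    rw [show c + 1 + n = c + (n + 1) by omega] at h2
    exact h2.mono (by omega)

end

theorem pf_p0 : J_P0 := by
  intro r T U Hh Vv x i c b w hx
  have h1 : Ev (S5 (r := r) U Hh Vv x) A5 ⟨.rd, i, c, 0, 0, 0, 0, 0, w⟩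
      ⟨.dbl b, i + 1, c, 0, 0, 0, 0, 0, w⟩ 1 := by
    refine Ev.step (fun k => ?_) (by simp [A5])
    simp [S5, hx]
  have h2 := ev_dbl (r := r) U Hh Vv x b (i + 1) 0 0 0 w c 0 0
  have h3 := ev_db2 (r := r) U Hh Vv x b (i + 1) 0 (0 + c) 0 0 w (0 + c) 0
  have h4 := ev_db3 (r := r) U Hh Vv x b (i + 1) 0 0 0 0 w (0 + c) (0 + (0 + c))
  have h5 := ((h1.trans h2).trans h3).trans h4
  rw [show 0 + (0 + c) + (0 + c) + b.toNat = 2 * c + b.toNat by omega] at h5
  exact h5.mono (by omega)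

end Pool.Agent.H69.JS
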